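import Pool.Agent.Helper25.VF.Main

/-!
# MP_b6b996_nt: Vaughan's inequality for the Moebius function with an exponent below `4/5`

There is `d > 0` with `|∑_{n ≤ N} μ(n) e(n x)| ≤ C N^ε (N q^{-1/2} + N^{4/5 - d} + (q N)^{1/2})` for all
coprime `a, q` with `|x - a/q| ≤ 1/q²`.
-/

set_option autoImplicit false

namespace Pool.Agent.Results.MP_b6b996_nt.BelowFourFifths

open Finset

/-- The exponential sum `∑ μ(n) e^{2 π i n x}` over `1 ≤ n ≤ N`. -/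
noncomputable def F (N : ℕ) (x : ℝ) : ℂ :=
  ∑ n ∈ Icc 1 N, (ArithmeticFunction.moebius n : ℂ) * Complex.exp (2 * Real.pi * Complex.I * n * x)

lemma F_eq (N : ℕ) (x : ℝ) : F N x = Pool.Helper19.V4.FM N x := by
  unfold F Pool.Helper19.V4.FM Pool.Helper19.V4.ex
  refine Finset.sum_congr rfl fun n _ => ?_
  congr 2
  push_cast
  ring

/-- Vaughan's inequality for the Moebius function with an exponent below `4/5`. -/
theorem result : ∃ d : ℝ, 0 < d ∧ ∀ ε : ℝ, 0 < ε → ∃ C : ℝ, ∀ (N : ℕ) (x : ℝ) (a : ℤ) (q : ℕ),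
    1 ≤ N → 1 ≤ q → IsCoprime a (q : ℤ) → |x - a / q| ≤ 1 / (q : ℝ) ^ 2 →
      ‖F N x‖ ≤ C * (N : ℝ) ^ ε * (N / Real.sqrt q + (N : ℝ) ^ (4 / 5 - d : ℝ) +
        Real.sqrt (q * N)) := by
  obtain ⟨d, hd, h⟩ := Pool.Agent.Helper25.VF.vfull
  refine ⟨d, hd, fun ε hε => ?_⟩
  obtain ⟨C, _, hC⟩ := h ε hε
  refine ⟨C, fun N x a q hN hq haq hx => ?_⟩
  rw [F_eq]
  exact hC N hN x a q hq haq hx

end Pool.Agent.Results.MP_b6b996_nt.BelowFourFifths
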