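import Pool.Agent.Helper25.V0.Main

/-!
# MP_b6b996_nt: the exponential sum of the Moebius function below `N^{4/5}` at the middle fractions

For `2/5 < κ0` and `κ1 < 68/135` there is `d > 0` with
`|∑_{n ≤ N} μ(n) e(n x)| ≤ C (1 + N |x - a/b|) N^{4/5 - d}` for all coprime `a, b` with
`N^κ0 ≤ b ≤ N^κ1`.
-/

set_option autoImplicit false

namespace Pool.Agent.Helper25.Reserve.MiddleArcs

open Finset

/-- The exponential sum `∑ μ(n) e^{2 π i n x}` over `1 ≤ n ≤ N`. -/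
noncomputable def F (N : ℕ) (x : ℝ) : ℂ :=
  ∑ n ∈ Icc 1 N, (ArithmeticFunction.moebius n : ℂ) * Complex.exp (2 * Real.pi * Complex.I * n * x)

lemma F_eq (N : ℕ) (x : ℝ) : F N x = Pool.Helper19.V4.FM N x := by
  unfold F Pool.Helper19.V4.FM Pool.Helper19.V4.ex
  refine Finset.sum_congr rfl fun n _ => ?_
  congr 2
  push_cast
  ring

/-- The bound at the fractions with denominators between `N^κ0` and `N^κ1`. -/
theorem result (κ0 κ1 : ℝ) (h0 : 2 / 5 < κ0) (h1 : κ1 < 68 / 135) :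
    ∃ d : ℝ, 0 < d ∧ ∃ C : ℝ, ∀ N : ℕ, 1 ≤ N → ∀ (x : ℝ) (a : ℤ) (b : ℕ), 1 ≤ b →
      IsCoprime a (b : ℤ) → (N : ℝ) ^ κ0 ≤ b → (b : ℝ) ≤ (N : ℝ) ^ κ1 →
        ‖F N x‖ ≤ C * (1 + N * |x - a / b|) * (N : ℝ) ^ (4 / 5 - d : ℝ) := by
  obtain ⟨d, hd, C, _, h⟩ := Pool.Agent.Helper25.V0.v0 h0 h1
  refine ⟨d, hd, C, fun N hN x a b hb hab h2 h3 => ?_⟩
  rw [F_eq]
  exact h N hN x a b hb hab h2 h3

end Pool.Agent.Helper25.Reserve.MiddleArcs
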