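import Pool.Agent.Helper25.VF.WMerge

/-!
# MP_b6b996_nt: the exponential sum with the Moebius function and the zeros of Dirichlet L-functions

For `43/54 ≤ a ≤ 1`: no Dirichlet L-function has a zero in `Re s > a` if and only if, for all coprime `b, q` with
`|x - b/q| ≤ 1/q²`, `|∑_{n ≤ N} μ(n) e(n x)| ≤ C N^ε (min (N q^{-1/2}) N^a + N^{43/54} + (q N)^{1/2})`.
For `a = 1` the first statement is the classical non-vanishing in `Re s > 1`.
-/

set_option autoImplicit false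

namespace Pool.Agent.Results.MP_b6b996_nt.MobiusSumZeros

open Finset

/-- The exponential sum `∑ μ(n) e^{2 π i n x}` over `1 ≤ n ≤ N`. -/
noncomputable def F (N : ℕ) (x : ℝ) : ℂ :=
  ∑ n ∈ Icc 1 N, (ArithmeticFunction.moebius n : ℂ) * Complex.exp (2 * Real.pi * Complex.I * n * x)

lemma F_eq (N : ℕ) (x : ℝ) : F N x = Pool.Helper19.V4.FM N x := by
  unfold F Pool.Helper19.V4.FM Pool.Helper19.V4.ex
  refine Finset.sum_congr rfl fun n _ => ?_
  congr 2
  push_cast
  ring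

/-- The bound for the exponential sum is equivalent to a zero free half plane of all Dirichlet L-functions. -/
theorem result : ∀ a : ℝ, 43 / 54 ≤ a → a ≤ 1 →
    ((∀ ε : ℝ, 0 < ε → ∃ C : ℝ, ∀ (N : ℕ) (x : ℝ) (b : ℤ) (q : ℕ), 1 ≤ N → 1 ≤ q → IsCoprime b (q : ℤ) →
        |x - b / q| ≤ 1 / (q : ℝ) ^ 2 →
          ‖F N x‖ ≤ C * (N : ℝ) ^ ε *
            (min (N / Real.sqrt q) ((N : ℝ) ^ a) + (N : ℝ) ^ (43 / 54 : ℝ) + Real.sqrt (q * N))) ↔
      ∀ (q : ℕ) [NeZero q] (χ : DirichletCharacter ℂ q) (s : ℂ), a < s.re → s ≠ 1 →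
        DirichletCharacter.LFunction χ s ≠ 0) := by
  intro a ha _
  simp only [F_eq]
  exact Pool.Agent.Helper25.WM.merged ha

end Pool.Agent.Results.MP_b6b996_nt.MobiusSumZeros
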